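import Mathlib

namespace Pool.Agent.Results.MP_f92aba_nt.DependentFactorials

/-- `f(x) = Γ(1 + x) x^{-x}`. -/
noncomputable def f (x : ℝ) : ℝ := Real.Gamma (1 + x) * x ^ (-x)

/-- The assertion of Q1: for lists of pairwise distinct integers `≥ 2`, equality of the products
of the values of `f` forces equal length and equality up to permutation. -/
def Q1 : Prop :=
  ∀ l₁ l₂ : List ℕ, l₁.Nodup → l₂.Nodup → (∀ t ∈ l₁, 2 ≤ t) → (∀ s ∈ l₂, 2 ≤ s) →
    (l₁.map (fun t : ℕ => f t)).prod = (l₂.map (fun s : ℕ => f s)).prod →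
      l₁.length = l₂.length ∧ l₁.Perm l₂

lemma f_nat (t : ℕ) : f t = (t.factorial : ℝ) / (t : ℝ) ^ t := by
  unfold f
  rw [add_comm, Real.Gamma_nat_eq_factorial, Real.rpow_neg (Nat.cast_nonneg t),
    Real.rpow_natCast]
  rfl

/-- The two lists. -/
def L₁ : List ℕ := [4, 10, 12, 15, 18, 21, 32]

/-- The two lists. -/
def L₂ : List ℕ := [3, 5, 6, 7, 8, 14, 16, 20, 36]

lemma prods_eq : (L₁.map (fun t : ℕ => f t)).prod = (L₂.map (fun s : ℕ => f s)).prod := by
  have key : (L₁.map Nat.factorial).prod * (L₂.map (fun s => s ^ s)).prod =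
      (L₂.map Nat.factorial).prod * (L₁.map (fun t => t ^ t)).prod := by
    decide +kernel
  have hcast : ∀ l : List ℕ, (∀ t ∈ l, 2 ≤ t) → (l.map (fun t : ℕ => f t)).prod =
      ((l.map Nat.factorial).prod : ℕ) / (((l.map (fun t => t ^ t)).prod : ℕ) : ℝ) := by
    intro l
    induction l with
    | nil => intro _; simp
    | cons a l ih =>
      intro h
      rw [List.map_cons, List.prod_cons, List.map_cons, List.prod_cons, List.map_cons,
        List.prod_cons, ih (fun t ht => h t (by simp [ht])), f_nat]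
      push_cast
      rw [div_mul_div_comm]
  have hpos : ∀ l : List ℕ, (∀ t ∈ l, 2 ≤ t) →
      (((l.map (fun t => t ^ t)).prod : ℕ) : ℝ) ≠ 0 := by
    intro l h
    rw [Nat.cast_ne_zero, Ne, List.prod_eq_zero_iff, List.mem_map]
    rintro ⟨t, ht, h0⟩
    have := h t ht
    have h1 : 0 < t ^ t := by positivity
    omega
  have h1 : ∀ t ∈ L₁, 2 ≤ t := by decide
  have h2 : ∀ t ∈ L₂, 2 ≤ t := by decide
  rw [hcast L₁ h1, hcast L₂ h2, div_eq_div_iff (hpos L₁ h1) (hpos L₂ h2)]
  exact_mod_cast key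

/-- Q1 fails, and in fact there are two disjoint nonempty sets `T`, `S` of integers `≥ 2`, of
different size, with `∏_{t ∈ T} t!/t^t = ∏_{s ∈ S} s!/s^s`. -/
theorem result : ¬ Q1 ∧ ∃ T S : Finset ℕ, (∀ t ∈ T, 2 ≤ t) ∧ (∀ s ∈ S, 2 ≤ s) ∧ T ≠ S ∧
    Disjoint T S ∧ T.card ≠ S.card ∧ ∏ t ∈ T, f t = ∏ s ∈ S, f s := by
  constructor
  · intro h
    have := (h L₁ L₂ (by decide) (by decide) (by decide) (by decide) prods_eq).1
    revert this
    decide
  · refine ⟨L₁.toFinset, L₂.toFinset, by decide, by decide, by decide, by decide, by decide, ?_⟩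
    have e1 : ∏ t ∈ L₁.toFinset, f t = (L₁.map (fun t : ℕ => f t)).prod :=
      List.prod_toFinset _ (by decide)
    have e2 : ∏ t ∈ L₂.toFinset, f t = (L₂.map (fun t : ℕ => f t)).prod :=
      List.prod_toFinset _ (by decide)
    rw [e1, e2, prods_eq]

end Pool.Agent.Results.MP_f92aba_nt.DependentFactorials
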